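import Pool.Agent.Q209.MP.Crit
import Pool.Agent.TH526.ZL.H

/-!
Subsets of `Y(1)^n × G_m^k` given by equations whose Newton polytopes at several places are boxes in some
of the coordinates: the local criterion (helper file; adapted from `Pool.Agent.Q170.BX.Crit` and
`Pool.Agent.TH526.ZL.corner_unit`).
-/

set_option autoImplicit false

open Function UpperHalfPlane H294ZP MvPolynomial Pool.Agent.W466.ZC
open Pool.Agent.TH526.ZL (corner corner_apply exists_place1 mem_of_int unit_of_int)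

namespace Pool.Agent.Q209.MB

open Pool.Agent
open Pool.Agent.Q170.PD (IndPos)
open Pool.Agent.Q209.MP (Rigid needs coreMP)

/-- A zero of a polynomial with integral coefficients, whose corner coefficients are units for all corners
which contain the coordinates without the property `P`. -/
theorem pcorner_unit (V : ValuationSubring ℂ) {σ : Type} [Fintype σ] [DecidableEq σ]
    (G : MvPolynomial σ ℂ) (hV : ∀ u ∈ G.support, V.valuation (G.coeff u) ≤ 1)
    (d : σ → ℕ) (hd : ∀ u ∈ G.support, ∀ j, u j ≤ d j) (P : σ → Prop)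
    (hc : ∀ I : Finset σ, (∀ j, ¬ P j → j ∈ I) → V.valuation (G.coeff (corner d I)) = 1)
    (z : σ → ℂ) (hz : aeval z G = 0) :
    ∃ j, (P j → V.valuation (z j) = 1) ∧ (¬ P j → V.valuation (z j) ≤ 1) := by
  classical
  by_contra hcon
  push Not at hcon
  set v := V.valuation with hv
  let I : Finset σ := Finset.univ.filter fun j => 1 < v (z j)
  have hI : ∀ j, j ∈ I ↔ 1 < v (z j) := fun j => by simp [I]
  have hI' : ∀ j, j ∉ I → v (z j) < 1 := by
    intro j hj
    rw [hI, not_lt] at hj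
    refine lt_of_le_of_ne hj fun h1 => ?_
    exact absurd (hcon j (fun _ => h1)).2 (not_lt.2 h1.le)
  have hIc : ∀ j, ¬ P j → j ∈ I := by
    intro j hj
    rw [hI]
    exact (hcon j (fun h => absurd h hj)).2
  have hcI := hc I hIc
  have hmem : corner d I ∈ G.support := by
    rw [mem_support_iff]
    intro h0
    rw [h0, map_zero] at hcI
    exact zero_ne_one hcI
  rw [aeval_def, eval₂_eq'] at hz
  have hterm : ∀ u : σ →₀ ℕ, v (algebraMap ℂ ℂ (G.coeff u) * ∏ j, z j ^ u j) =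
      v (G.coeff u) * ∏ j, v (z j) ^ u j := by
    intro u
    rw [map_mul, map_prod]
    congr 1
    refine Finset.prod_congr rfl fun j _ => ?_
    rw [map_pow]
  have hb : ∀ j, v (z j) ^ corner d I j ≠ 0 := by
    intro j
    rw [corner_apply]
    split_ifs with h
    · exact pow_ne_zero _ (zero_lt_one.trans ((hI j).1 h)).ne'
    · rw [pow_zero]
      exact one_ne_zero
  have hle : ∀ u ∈ G.support, ∀ j, v (z j) ^ u j ≤ v (z j) ^ corner d I j ∧
      (u j ≠ corner d I j → v (z j) ^ u j < v (z j) ^ corner d I j) := by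
    intro u hu j
    rw [corner_apply]
    split_ifs with h
    · have h1 := (hI j).1 h
      have h2 := hd u hu j
      exact ⟨pow_le_pow_right₀ h1.le h2, fun h3 => pow_lt_pow_right₀ h1 (lt_of_le_of_ne h2 h3)⟩
    · have h1 := hI' j h
      rw [pow_zero]
      exact ⟨pow_le_one₀ zero_le h1.le, fun h3 => pow_lt_one₀ zero_le h1 h3⟩
  have hlt : ∀ u ∈ G.support, u ≠ corner d I →
      ∏ j, v (z j) ^ u j < ∏ j, v (z j) ^ corner d I j := by
    intro u hu hne
    obtain ⟨j0, hj0⟩ : ∃ j, u j ≠ corner d I j := by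
      by_contra h
      push Not at h
      exact hne (Finsupp.ext h)
    rw [← Finset.mul_prod_erase Finset.univ _ (Finset.mem_univ j0),
      ← Finset.mul_prod_erase Finset.univ (fun j => v (z j) ^ corner d I j) (Finset.mem_univ j0)]
    have h1 : ∏ j ∈ Finset.univ.erase j0, v (z j) ^ u j ≤
        ∏ j ∈ Finset.univ.erase j0, v (z j) ^ corner d I j :=
      Finset.prod_le_prod' fun j _ => (hle u hu j).1
    have h2 : ∏ j ∈ Finset.univ.erase j0, v (z j) ^ corner d I j ≠ 0 :=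
      Finset.prod_ne_zero_iff.2 fun j _ => hb j
    calc v (z j0) ^ u j0 * ∏ j ∈ Finset.univ.erase j0, v (z j) ^ u j ≤
          v (z j0) ^ u j0 * ∏ j ∈ Finset.univ.erase j0, v (z j) ^ corner d I j := by gcongr
      _ < v (z j0) ^ corner d I j0 * ∏ j ∈ Finset.univ.erase j0, v (z j) ^ corner d I j :=
          mul_lt_mul_of_pos_right ((hle u hu j0).2 hj0) (zero_lt_iff.2 h2)
  have h1 := Valuation.map_sum_eq_of_lt v hmem
    (f := fun u => algebraMap ℂ ℂ (G.coeff u) * ∏ j, z j ^ u j) (fun u hu => by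
      rw [Finset.mem_sdiff, Finset.mem_singleton] at hu
      rw [hterm, hterm, hcI, one_mul]
      exact (mul_le_of_le_one_left' (hV _ hu.1)).trans_lt (hlt u hu.1 hu.2))
  rw [hz, map_zero, hterm, hcI, one_mul] at h1
  exact Finset.prod_ne_zero_iff.2 (fun j _ => hb j) h1.symm

/-- A zero of a polynomial whose Newton polytope is a box of the slopes `e - e'`. -/
theorem pbox_unit (V : ValuationSubring ℂ)
    {σ : Type} [Fintype σ] [DecidableEq σ] (G : MvPolynomial σ ℂ) (q : ℂ) (hq : q ≠ 0)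
    (e e' : σ → ℕ) (w : ℕ)
    (hV : ∀ u ∈ G.support, V.valuation (G.coeff u) * V.valuation q ^ (∑ j, e' j * u j) ≤
      V.valuation q ^ (w + ∑ j, e j * u j))
    (d : σ → ℕ) (hd : ∀ u ∈ G.support, ∀ j, u j ≤ d j) (P : σ → Prop)
    (hc : ∀ I : Finset σ, (∀ j, ¬ P j → j ∈ I) →
      V.valuation (G.coeff (corner d I)) * V.valuation q ^ (∑ j, e' j * corner d I j) =
      V.valuation q ^ (w + ∑ j, e j * corner d I j)) (z : σ → ℂ) (hz : aeval z G = 0) :
    ∃ j, (P j → V.valuation (z j) * V.valuation q ^ e j = V.valuation q ^ e' j) ∧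
      (¬ P j → V.valuation (z j) * V.valuation q ^ e j ≤ V.valuation q ^ e' j) := by
  classical
  let Gt : MvPolynomial σ ℂ := ∑ u ∈ G.support,
    monomial u (G.coeff u * q ^ (∑ j, e' j * u j) * (q ^ (w + ∑ j, e j * u j))⁻¹)
  have hvq : V.valuation q ≠ 0 := (Valuation.ne_zero_iff _).2 hq
  have hco : ∀ u, Gt.coeff u =
      G.coeff u * q ^ (∑ j, e' j * u j) * (q ^ (w + ∑ j, e j * u j))⁻¹ := by
    intro u
    simp only [Gt, coeff_sum, coeff_monomial]
    rw [Finset.sum_ite_eq' G.support u]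
    split_ifs with h
    · rfl
    · rw [notMem_support_iff.1 h, zero_mul, zero_mul]
  have hsupp : ∀ u ∈ Gt.support, u ∈ G.support := by
    intro u hu
    rw [mem_support_iff, hco] at hu
    rw [mem_support_iff]
    intro h0
    exact hu (by rw [h0, zero_mul, zero_mul])
  have hvco : ∀ u, V.valuation (Gt.coeff u) * V.valuation q ^ (w + ∑ j, e j * u j) =
      V.valuation (G.coeff u) * V.valuation q ^ (∑ j, e' j * u j) := by
    intro u
    rw [hco, map_mul, map_mul, map_inv₀, map_pow, map_pow, mul_assoc (V.valuation (G.coeff u) * _),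
      inv_mul_cancel₀ (pow_ne_zero _ hvq), mul_one]
  have hev : aeval (fun j => q ^ e j * z j * (q ^ e' j)⁻¹) Gt = 0 := by
    have h0 : aeval (fun j => q ^ e j * z j * (q ^ e' j)⁻¹) Gt = (q ^ w)⁻¹ * aeval z G := by
      simp only [Gt, map_sum, aeval_monomial]
      rw [aeval_def, eval₂_eq', Finset.mul_sum]
      refine Finset.sum_congr rfl fun u _ => ?_
      have h1 : (u.prod fun i k => (q ^ e i * z i * (q ^ e' i)⁻¹) ^ k) =
          q ^ (∑ j, e j * u j) * (∏ i, z i ^ u i) * (q ^ (∑ j, e' j * u j))⁻¹ := by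
        rw [Finsupp.prod_fintype _ _ fun i => pow_zero _]
        simp only [mul_pow, inv_pow, ← pow_mul]
        rw [Finset.prod_mul_distrib, Finset.prod_mul_distrib, Finset.prod_pow_eq_pow_sum,
          Finset.prod_inv_distrib, Finset.prod_pow_eq_pow_sum]
      rw [h1, Algebra.algebraMap_self, RingHom.id_apply, RingHom.id_apply, pow_add, mul_inv]
      have h2 := mul_inv_cancel₀ (pow_ne_zero (∑ j, e j * u j) hq)
      have h3 := mul_inv_cancel₀ (pow_ne_zero (∑ j, e' j * u j) hq)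
      generalize q ^ (∑ j, e j * u j) = a at h2 ⊢
      generalize q ^ (∑ j, e' j * u j) = b at h3 ⊢
      generalize (q ^ w)⁻¹ = c
      generalize ∏ i, z i ^ u i = t
      generalize G.coeff u = y
      calc y * b * (c * a⁻¹) * (a * t * b⁻¹) = c * (y * t) * (a * a⁻¹) * (b * b⁻¹) := by ring
        _ = c * (y * t) := by rw [h2, h3, mul_one, mul_one]
    rw [h0, hz, mul_zero]
  obtain ⟨j, hj1, hj2⟩ := pcorner_unit V Gt (fun u hu => by
      have h1 := hV u (hsupp u hu)
      rw [← hvco u] at h1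
      exact le_of_mul_le_mul_right (by rwa [one_mul]) (zero_lt_iff.2 (pow_ne_zero _ hvq))) d
    (fun u hu => hd u (hsupp u hu)) P (fun I hI => by
      have h1 := hc I hI
      rw [← hvco] at h1
      exact mul_right_cancel₀ (pow_ne_zero _ hvq) (h1.trans (one_mul _).symm)) _ hev
  have hz' : V.valuation (q ^ e j * z j * (q ^ e' j)⁻¹) * V.valuation q ^ e' j =
      V.valuation (z j) * V.valuation q ^ e j := by
    rw [map_mul, map_mul, map_inv₀, map_pow, map_pow, mul_assoc (V.valuation q ^ e j * _),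
      inv_mul_cancel₀ (pow_ne_zero _ hvq), mul_one, mul_comm]
  refine ⟨j, fun h => ?_, fun h => ?_⟩
  · rw [← hz', hj1 h, one_mul]
  · rw [← hz']
    exact mul_le_of_le_one_left' (hj2 h)

/-- the orders of the zeros: none for the modular coordinates -/
def zer {n k : ℕ} (e' : Fin k → ℕ) : Fin n ⊕ Fin k → ℕ := Sum.elim (fun _ => 0) e'

/-- From the equations to the orders of the coordinates. -/
theorem bad_setB (V : ValuationSubring ℂ) {n k m : ℕ} (e : Fin n ⊕ Fin k → ℕ) (e' : Fin k → ℕ)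
    (q : ℂ) (hq : q ≠ 0) (w : Finset (Fin n ⊕ Fin k) → ℕ)
    (G : ∀ J : Finset (Fin n ⊕ Fin k), MvPolynomial J ℂ)
    (hV : ∀ J : Finset (Fin n ⊕ Fin k), J.card = m + 1 → ∀ u ∈ (G J).support,
      V.valuation ((G J).coeff u) * V.valuation q ^ (∑ j : J, zer (n := n) e' j * u j) ≤
      V.valuation q ^ (w J + ∑ j : J, e j * u j))
    (d : ∀ J : Finset (Fin n ⊕ Fin k), J → ℕ)
    (hd : ∀ J : Finset (Fin n ⊕ Fin k), J.card = m + 1 → ∀ u ∈ (G J).support, ∀ j, u j ≤ d J j)
    (hc : ∀ J : Finset (Fin n ⊕ Fin k), J.card = m + 1 → ∀ I : Finset J, (∀ j : J, needs e j = 0 → j ∈ I) →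
      V.valuation ((G J).coeff (corner (d J) I)) *
        V.valuation q ^ (∑ j : J, zer (n := n) e' j * corner (d J) I j) =
      V.valuation q ^ (w J + ∑ j : J, e j * corner (d J) I j)) (x : Fin n ⊕ Fin k → ℂ)
    (hx : ∀ J : Finset (Fin n ⊕ Fin k), J.card = m + 1 → aeval (fun j : J => x j) (G J) = 0) :
    ∃ E : Finset (Fin n ⊕ Fin k), E.card ≤ m ∧
      (∀ i, Sum.inl i ∉ E →
        (0 < e (Sum.inl i) → V.valuation (x (Sum.inl i)) * V.valuation q ^ e (Sum.inl i) = 1) ∧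
        (e (Sum.inl i) = 0 → V.valuation (x (Sum.inl i)) ≤ 1)) ∧
      ∀ j, Sum.inr j ∉ E → V.valuation (x (Sum.inr j)) =
        V.valuation q ^ ((e' j : ℤ) - e (Sum.inr j)) := by
  classical
  have hvq : V.valuation q ≠ 0 := (Valuation.ne_zero_iff _).2 hq
  refine ⟨Finset.univ.filter fun i =>
      ¬ ((0 < needs e i → V.valuation (x i) * V.valuation q ^ e i = V.valuation q ^ zer e' i) ∧
      (¬ 0 < needs e i → V.valuation (x i) * V.valuation q ^ e i ≤ V.valuation q ^ zer e' i)),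
      ?_, ?_, ?_⟩
  · by_contra h
    rw [not_le] at h
    obtain ⟨J, hJE, hJc⟩ := Finset.exists_subset_card_eq (Nat.succ_le_of_lt h)
    obtain ⟨j, hj⟩ := pbox_unit V (G J) q hq (fun j : J => e j)
      (fun j : J => zer (n := n) e' j) (w J) (hV J hJc)
      (d J) (hd J hJc) (fun j : J => 0 < needs e j) (fun I hI => hc J hJc I fun j h0 =>
        hI j (by omega)) _ (hx J hJc)
    exact (Finset.mem_filter.1 (hJE j.2)).2 hj
  · intro i hi
    rw [Finset.mem_filter, not_and, not_not] at hi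
    obtain ⟨h1, h2⟩ := hi (Finset.mem_univ _)
    have hn : needs e (Sum.inl i) = e (Sum.inl i) := rfl
    have hz : zer e' (Sum.inl i) = 0 := rfl
    rw [hn, hz, pow_zero] at h1 h2
    refine ⟨h1, fun h0 => ?_⟩
    have h3 := h2 (by omega)
    rwa [h0, pow_zero, mul_one] at h3
  · intro j hj
    rw [Finset.mem_filter, not_and, not_not] at hj
    obtain ⟨h1, -⟩ := hj (Finset.mem_univ _)
    have hn : needs e (Sum.inr j) = 1 := rfl
    have hz : zer (n := n) e' (Sum.inr j) = e' j := rfl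
    rw [hn, hz] at h1
    have h3 := h1 one_pos
    rw [zpow_sub₀ hvq, zpow_natCast, zpow_natCast, ← h3, mul_div_assoc, div_self
      (pow_ne_zero _ hvq), mul_one]

/-- The local criterion for sets given by equations, for points. -/
theorem criterionMB {Λ : Type} [CommRing Λ] [IsDomain Λ] [Algebra Λ ℂ]
    {F : Type} [Field F] [Algebra F ℂ] {n k m τ L : ℕ} (β : ℕ → ℕ)
    (hL : ∀ s ≤ m + 1, β s + (m + 1 - s) * (τ + 1) + 1 ≤ L)
    (𝔭 : Fin L → Ideal Λ) (h𝔭 : ∀ l, (𝔭 l).IsPrime)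
    (G : ∀ J : Finset (Fin n ⊕ Fin k), MvPolynomial J Λ)
    (d : ∀ J : Finset (Fin n ⊕ Fin k), J → ℕ)
    (hd : ∀ J : Finset (Fin n ⊕ Fin k), J.card = m + 1 → ∀ u ∈ (G J).support, ∀ j, u j ≤ d J j)
    (π : Fin L → Λ) (hπ : ∀ l, π l ∈ 𝔭 l) (hπ0 : ∀ l, algebraMap Λ ℂ (π l) ≠ 0)
    (e : Fin L → Fin n ⊕ Fin k → ℕ) (e' : Fin L → Fin k → ℕ)
    (w : Fin L → Finset (Fin n ⊕ Fin k) → ℕ)
    (hG : ∀ l (J : Finset (Fin n ⊕ Fin k)), J.card = m + 1 → ∀ u ∈ (G J).support,
      ∃ a b : Λ, a ∉ 𝔭 l ∧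
      a * ((G J).coeff u * π l ^ (∑ j : J, zer (n := n) (e' l) j * u j)) =
        b * π l ^ (w l J + ∑ j : J, e l j * u j))
    (hcor : ∀ l (J : Finset (Fin n ⊕ Fin k)), J.card = m + 1 → ∀ I : Finset J,
      (∀ j : J, needs (e l) j = 0 → j ∈ I) → ∃ a b : Λ, a ∉ 𝔭 l ∧ b ∉ 𝔭 l ∧
      a * ((G J).coeff (corner (d J) I) * π l ^ (∑ j : J, zer (n := n) (e' l) j * corner (d J) I j)) =
        b * π l ^ (w l J + ∑ j : J, e l j * corner (d J) I j))
    (he : IndPos 1 fun l i => e l (Sum.inl i))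
    (hτ : ∀ i, (Finset.univ.filter fun l => e l (Sum.inl i) = 0).card ≤ τ)
    (hrig : Rigid m β fun l j => (e' l j : ℤ) - e l (Sum.inr j))
    {r : ℕ} (cls : Fin n → Option (Fin r)) (δ : Fin n → ℕ) (x : Fin n ⊕ Fin k → ℂ)
    (M : Submodule ℤ (Fin k → ℤ)) (η : Fin k → ℂ)
    (hδ : ∀ i, 0 < δ i)
    (hconst : ∀ i, cls i = none → IsIntegral Λ (x (Sum.inl i)))
    (hrel : ∀ i j l, cls i = some l → cls j = some l →
        IsIntegral (Algebra.adjoin ℤ {x (Sum.inl i)}) (x (Sum.inl j)) ∧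
        Polynomial.eval₂ (Polynomial.aeval (x (Sum.inl i)) : Polynomial ℂ →ₐ[ℂ] ℂ).toRingHom
          (x (Sum.inl j)) (W282.ZP.Psi (δ i * δ j)) = 0)
    (hx0 : ∀ j, x (Sum.inr j) ≠ 0) (hηF : ∀ j, ∃ u : F, η j = algebraMap F ℂ u)
    (hη0 : ∀ j, η j ≠ 0) (hη1 : ∀ j, IsIntegral Λ (η j)) (hη2 : ∀ j, IsIntegral Λ (η j)⁻¹)
    (hM : ∀ a ∈ M, W282.ZP.chi (fun j => x (Sum.inr j)) a = W282.ZP.chi η a)
    (hGz : ∀ J : Finset (Fin n ⊕ Fin k), J.card = m + 1 → aeval (fun j : J => x j) (G J) = 0)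
    (S : Finset (Fin n ⊕ Fin k)) (hS : AlgebraicIndependent Λ (fun i : S => x i))
    (hSF : AlgebraicIndependent F (fun i : S => x i)) :
    S.card + n + Module.finrank ℤ M ≤ r + m := by
  classical
  choose V hV1 hV2 hVx using fun l => exists_place1 (𝔭 l) _ hS
  have hunit : ∀ l (a : Λ), a ∉ 𝔭 l → (V l).valuation (algebraMap Λ ℂ a) = 1 := by
    intro l a ha
    refine le_antisymm (hV1 l a) ?_
    by_contra h
    push Not at h
    exact ha ((hV2 l a).1 h)
  refine coreMP (m := m) β hL (fun l i => e l (Sum.inl i)) he hτ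
    (fun l j => (e' l j : ℤ) - e l (Sum.inr j)) hrig cls δ x M η hδ
    (fun i hi => (hconst i hi).isAlgebraic) hrel hx0 hηF hM S hS hSF V
    (fun l => (V l).valuation (algebraMap Λ ℂ (π l)))
    (fun l => (Valuation.ne_zero_iff _).2 (hπ0 l)) (fun l => (hV2 l (π l)).2 (hπ l))
    (fun l i hi => mem_of_int (V l) (hV1 l) (hconst i hi)) hVx
    (fun l j => unit_of_int (V l) (hV1 l) (hη0 j) (hη1 j) (hη2 j)) ?_
  intro l
  have hsupp : ∀ J, ∀ u ∈ (MvPolynomial.map (algebraMap Λ ℂ) (G J)).support,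
      u ∈ (G J).support := fun J u hu => support_map_subset _ _ hu
  refine bad_setB (m := m) (V l) (e l) (e' l) (algebraMap Λ ℂ (π l)) (hπ0 l) (w l)
    (fun J => MvPolynomial.map (algebraMap Λ ℂ) (G J)) (fun J hJ u hu => ?_) d
    (fun J hJ u hu => hd J hJ u (hsupp J u hu)) (fun J hJ I hI => ?_) x (fun J hJ => ?_)
  · obtain ⟨a, b, ha, hab⟩ := hG l J hJ u (hsupp J u hu)
    have h1 := congrArg (fun z => (V l).valuation (algebraMap Λ ℂ z)) hab
    simp only [map_mul, map_pow, hunit l a ha, one_mul] at h1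
    rw [coeff_map, h1]
    exact mul_le_of_le_one_left' (hV1 l b)
  · obtain ⟨a, b, ha, hb, hab⟩ := hcor l J hJ I hI
    have h1 := congrArg (fun z => (V l).valuation (algebraMap Λ ℂ z)) hab
    simp only [map_mul, map_pow, hunit l a ha, hunit l b hb, one_mul] at h1
    rw [coeff_map, h1]
  · have h1 := hGz J hJ
    rw [aeval_def] at h1
    rw [aeval_def, eval₂_map, Algebra.algebraMap_self, RingHom.id_comp]
    exact h1

/-- The points of `Y(1)^n × G_m^k` which satisfy the equations `G_J (x_j, j ∈ J) = 0` for all sets `J` of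
`m + 1` coordinates. -/
def given {A : Type} [CommRing A] (f : A →+* ℂ) {n k : ℕ} (m : ℕ)
    (G : ∀ J : Finset (Fin n ⊕ Fin k), MvPolynomial J A) : Set (Fin n ⊕ Fin k → ℂ) :=
  {x | (∀ j, x (Sum.inr j) ≠ 0) ∧
    ∀ J : Finset (Fin n ⊕ Fin k), J.card = m + 1 → eval₂ f (fun j : J => x j) (G J) = 0}

end Pool.Agent.Q209.MB
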