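import Pool.Agent.Q209.MB.Crit
import Pool.Agent.Q209.MP.FG

/-!
Families with one parameter of subsets of `Y(1)^n × G_m^k` given by equations with partial box
degenerations: the members with parameters in finitely generated fields and rings, and with
transcendental parameters (helper file; adapted from `Pool.Agent.Q209.MP.FG` and
`Pool.Agent.Q170.BX.FG`).
-/

set_option autoImplicit false

namespace Pool.Agent.Q209.MB

open Pool.Agent
open H294ZP UpperHalfPlane MvPolynomial Pool.Agent.W282.ZP Pool.Agent.Y910.Z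
open Pool.Agent.TH526.ZL (spec corner)
open Pool.Agent.Q170.RG (order int_up)
open Pool.Agent.Q209.MP (needs Cond nearSM noAtypicalM_pt)
open Pool.Agent.Y152.RP.FamM (SpecialVariety SpecialVariety.locus coset NoAtypical evalAt
  rel_of_locus)

/-- The Newton polytopes of the equations at `t = α` are boxes in the degenerating coordinates. -/
def BoxAt {K : Subfield ℂ} {n k : ℕ} (m : ℕ)
    (G : ∀ J : Finset (Fin n ⊕ Fin k), MvPolynomial J (Polynomial K))
    (d : ∀ J : Finset (Fin n ⊕ Fin k), J → ℕ) (e : Fin n ⊕ Fin k → ℕ) (e' : Fin k → ℕ)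
    (α : ℂ) : Prop :=
  ∀ J : Finset (Fin n ⊕ Fin k), J.card = m + 1 → ∃ w : ℕ,
    (∀ u ∈ (G J).support, w + ∑ j : J, e j * u j ≤
      order ((G J).coeff u) α + ∑ j : J, zer (n := n) e' j * u j) ∧
    ∀ I : Finset J, (∀ j : J, needs e j = 0 → j ∈ I) → (G J).coeff (corner (d J) I) ≠ 0 ∧
      order ((G J).coeff (corner (d J) I)) α + ∑ j : J, zer (n := n) e' j * corner (d J) I j =
        w + ∑ j : J, e j * corner (d J) I j

/-- The members with parameters in finitely generated fields and rings. -/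
theorem fgMB (K : Subfield ℂ) [Countable K] (n k₀ m M L : ℕ)
    (hL0 : 0 < L)
    (G : ∀ J : Finset (Fin n ⊕ Fin k₀), MvPolynomial J (Polynomial K))
    (d : ∀ J : Finset (Fin n ⊕ Fin k₀), J → ℕ)
    (hd : ∀ J : Finset (Fin n ⊕ Fin k₀), J.card = m + 1 → ∀ u ∈ (G J).support, ∀ j, u j ≤ d J j)
    (D : Fin M → Finset ℂ) (hD : ∀ l, ∀ α ∈ D l, IsAlgebraic K α)
    (e : ℂ → Fin n ⊕ Fin k₀ → ℕ) (e' : ℂ → Fin k₀ → ℕ)
    (hind : ∀ (f : Fin L → Fin M) (α : Fin L → ℂ), Function.Injective f →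
      (∀ l, α l ∈ D (f l)) → ∃ (τ : ℕ) (β : ℕ → ℕ),
        (∀ s ≤ m + 1, β s + (m + 1 - s) * (τ + 1) + 1 ≤ L) ∧
        Cond m τ β (fun l => e (α l)) (fun l => e' (α l)))
    (hbox : ∀ l, ∀ α ∈ D l, BoxAt m G d (e α) (e' α) α)
    (Γ : Finset ℂ) (hΓ : ∀ γ ∈ Γ, IsAlgebraic K γ) (F : Finset ℂ)
    (hF : ∀ z ∈ F, IsAlgebraic K z) :
    ((∀ I : Finset (Fin M), M + 1 ≤ I.card + L → 3 ≤ (I.biUnion D).card) →
      {t : ℂ | t ∈ Subfield.closure (F : Set ℂ) ∧
        ¬ NoAtypical (algebraMap (Algebra.adjoin ℤ (Γ : Set ℂ)) ℂ) K m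
          (given (evalAt K t) m G)}.Finite) ∧
    ((∀ I : Finset (Fin M), M + 1 ≤ I.card + L → 2 ≤ (I.biUnion D).card) →
      {t : ℂ | t ∈ Subring.closure (F : Set ℂ) ∧
        ¬ NoAtypical (algebraMap (Algebra.adjoin ℤ (Γ : Set ℂ)) ℂ) K m
          (given (evalAt K t) m G)}.Finite) := by
  classical
  let kk := algebraicClosure K ℂ
  have hcl : IsAlgClosure K kk := inferInstance
  have hac : IsAlgClosed kk := hcl.isAlgClosed
  have hc0k : CharZero kk := inferInstance
  let φ : Polynomial K →+* Polynomial kk := Polynomial.mapRingHom (algebraMap K kk)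
  have hφinj : Function.Injective φ := Polynomial.map_injective _ (algebraMap K kk).injective
  have hev : ∀ (t : kk), (algebraMap kk ℂ).comp ((Polynomial.evalRingHom t).comp φ) =
      evalAt K (algebraMap kk ℂ t) := by
    intro t
    refine Polynomial.ringHom_ext (fun a => ?_) ?_
    · simp only [φ, evalAt, RingHom.comp_apply, Polynomial.coe_mapRingHom, Polynomial.map_C,
        Polynomial.coe_evalRingHom, Polynomial.eval_C, AlgHom.toRingHom_eq_coe, RingHom.coe_coe,
        Polynomial.aeval_C]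
      rfl
    · simp only [φ, evalAt, RingHom.comp_apply, Polynomial.coe_mapRingHom, Polynomial.map_X,
        Polynomial.coe_evalRingHom, Polynomial.eval_X, AlgHom.toRingHom_eq_coe, RingHom.coe_coe,
        Polynomial.aeval_X]
  have hmult : ∀ (α : kk) (p : Polynomial K), (φ p).rootMultiplicity α =
      order p (algebraMap kk ℂ α) := by
    intro α p
    have h1 := Polynomial.eq_rootMultiplicity_map (p := φ p) (f := algebraMap kk ℂ)
      (algebraMap kk ℂ).injective α
    rw [h1]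
    simp only [φ, order, Polynomial.coe_mapRingHom, Polynomial.map_map]
    rfl
  -- finite sets of algebraic numbers
  have hlift : ∀ S : Finset ℂ, (∀ z ∈ S, IsAlgebraic K z) → ∃ S' : Finset kk,
      (∀ z : kk, z ∈ S' ↔ algebraMap kk ℂ z ∈ S) ∧
      algebraMap kk ℂ '' (S' : Set kk) = (S : Set ℂ) := by
    intro S hS
    have hmem : ∀ z ∈ S, z ∈ algebraicClosure K ℂ := fun z hz =>
      mem_algebraicClosure_iff'.2 (hS z hz).isIntegral
    have h1 : ∀ z : kk, z ∈ (S.attach.image fun z => (⟨z.1, hmem z.1 z.2⟩ : kk)) ↔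
        algebraMap kk ℂ z ∈ S := by
      intro z
      constructor
      · intro hz
        obtain ⟨w, _, hw⟩ := Finset.mem_image.1 hz
        rw [← hw]
        exact w.2
      · intro hz
        exact Finset.mem_image.2 ⟨⟨z.1, hz⟩, Finset.mem_attach _ _, rfl⟩
    refine ⟨S.attach.image fun z => ⟨z.1, hmem z.1 z.2⟩, h1, ?_⟩
    ext z
    constructor
    · rintro ⟨w, hw, rfl⟩
      exact (h1 w).1 hw
    · intro hz
      exact ⟨⟨z, hmem z hz⟩, (h1 _).2 hz, rfl⟩
  obtain ⟨Γf, -, hΓf⟩ := hlift Γ hΓ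
  let Γ' : Set kk := (Γf : Set kk)
  have hΓ' : algebraMap kk ℂ '' Γ' = (Γ : Set ℂ) := hΓf
  obtain ⟨F', -, hF'⟩ := hlift F hF
  choose D' hD' hD'im using fun l => hlift (D l) (hD l)
  have hcard : ∀ I : Finset (Fin M), (I.biUnion D').card = (I.biUnion D).card := by
    intro I
    rw [← Finset.card_image_of_injective (I.biUnion D') (algebraMap kk ℂ).injective]
    congr 1
    ext z
    simp only [Finset.mem_image, Finset.mem_biUnion]
    constructor
    · rintro ⟨w, ⟨l, hl, hw⟩, rfl⟩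
      exact ⟨l, hl, (hD' l w).1 hw⟩
    · rintro ⟨l, hl, hz⟩
      have h1 : z ∈ algebraMap kk ℂ '' (D' l : Set kk) := by
        rw [hD'im]
        exact hz
      obtain ⟨w, hw, hwz⟩ := h1
      exact ⟨w, ⟨l, hl, hw⟩, hwz⟩
  let Rt : Finset kk := Finset.univ.biUnion D'
  have hRt : ∀ α : kk, α ∈ Rt ↔ ∃ l, α ∈ D' l := by
    intro α
    simp only [Rt, Finset.mem_biUnion, Finset.mem_univ, true_and]
  let ρt : Fin Rt.card → kk := fun l => (Rt.equivFin.symm l : kk)
  have hρ : ∀ α ∈ Rt, ∃ l, ρt l = α := by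
    intro α hα
    refine ⟨Rt.equivFin ⟨α, hα⟩, ?_⟩
    simp [ρt]
  have hρ' : ∀ l, ρt l ∈ Rt := fun l => (Rt.equivFin.symm l).2
  -- the coefficients of the equations
  let ι := Σ J : {J : Finset (Fin n ⊕ Fin k₀) // J.card = m + 1}, (G J.1).support
  let cf : ι → Polynomial K := fun i => (G i.1.1).coeff i.2
  have hcf : ∀ i, cf i ≠ 0 := fun i => mem_support_iff.1 i.2.2
  have hc0 : ∀ i, φ (cf i) ≠ 0 := fun i => (map_ne_zero_iff φ hφinj).2 (hcf i)
  obtain ⟨W₀, hW₀, hΓW₀, hρW₀, hnear⟩ := nearSM (k := kk) (m := 0) (M := Rt.card) (N := 0)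
    (κ := Empty) (ι := Empty) (ι' := ι) (fun i => i.elim) (fun i => i.elim) (fun i => i.elim)
    (fun i => φ (cf i)) ρt (fun _ i => i.elim) hc0
    (fun l I hI y _ _ => by
      exfalso
      obtain ⟨i, -⟩ := Finset.card_pos.1 (by rw [hI]; exact Nat.succ_pos _)
      exact i.elim)
    Γ' (Set.toFinite _)
  let W : Finset kk := hW₀.toFinset
  have hW : (W : Set kk) = W₀ := Set.Finite.coe_toFinset hW₀
  -- the core
  have core : ∀ (t : kk), t ∉ Rt → (∃ f : Fin L → Fin M,
      Function.Injective f ∧ ∀ l, ∃ a ∈ D' (f l), ¬ Bad (W : Set kk) t a) →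
      NoAtypical (algebraMap (Algebra.adjoin ℤ (Γ : Set ℂ)) ℂ) K m
        (given (evalAt K (algebraMap kk ℂ t)) m G) := by
    rintro t htRt ⟨f, hf, hp⟩
    rw [hW] at hp
    choose α hα hbad using hp
    have hαRt : ∀ l, α l ∈ Rt := fun l => (hRt _).2 ⟨_, hα l⟩
    have hαW : ∀ l, α l ∈ W₀ := by
      intro l
      obtain ⟨l', hl'⟩ := hρ _ (hαRt l)
      rw [← hl']
      exact hρW₀ l'
    have htα : ∀ l, t ≠ α l := by
      intro l h
      exact htRt (h ▸ hαRt l)
    choose 𝔭 h𝔭 hmem𝔭 using fun l => exists_max W₀ (hαW l) (htα l) (hbad l)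
    obtain ⟨Λ, hΛ⟩ : ∃ Λ, Λ = Subring.closure (insert t W₀) := ⟨_, rfl⟩
    subst hΛ
    let Λ : Subring kk := Subring.closure (insert t W₀)
    have hWΛ : W₀ ⊆ (Λ : Set kk) := fun z hz => Subring.subset_closure (Set.mem_insert_of_mem _ hz)
    let t' : Λ := ⟨t, Subring.subset_closure (Set.mem_insert _ _)⟩
    let r' : Fin L → Λ := fun l => ⟨α l, hWΛ (hαW l)⟩
    have hmem : ∀ l, t' - r' l ∈ 𝔭 l := fun l => hmem𝔭 l
    obtain ⟨_, _, _, c', _, _, _, hc', hN⟩ := hnear Λ hWΛ
    have hsub : Function.Injective Λ.subtype := Subtype.val_injective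
    let i1 : Algebra Λ ℂ := ((algebraMap kk ℂ).comp Λ.subtype).toAlgebra
    have hmapΛ : ∀ z : Λ, algebraMap Λ ℂ z = algebraMap kk ℂ (z : kk) := fun z => rfl
    have htower : IsScalarTower Λ kk ℂ := IsScalarTower.of_algebraMap_eq fun z => rfl
    have hinjC : Function.Injective (algebraMap Λ ℂ) := by
      intro a b h
      exact hsub ((algebraMap kk ℂ).injective h)
    have hcval : ∀ i, algebraMap Λ ℂ ((c' i).eval t') = evalAt K (algebraMap kk ℂ t) (cf i) := by
      intro i
      have h1 : (((c' i).eval t' : Λ) : kk) = (φ (cf i)).eval t := by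
        rw [← hc' i, Polynomial.eval_map]
        exact (Polynomial.eval₂_at_apply Λ.subtype t').symm
      rw [hmapΛ, h1, ← hev t]
      rfl
    have hintΓ : ∀ z, (algebraMap (Algebra.adjoin ℤ (Γ : Set ℂ)) ℂ).IsIntegralElem z →
        IsIntegral Λ z := by
      intro z hz
      refine int_up hinjC (Γ : Set ℂ) (fun g hg => ?_) hz
      rw [← hΓ'] at hg
      obtain ⟨g', hg', rfl⟩ := hg
      exact ⟨⟨g', hWΛ (hΓW₀ hg')⟩, rfl⟩
    -- the equations over the ring
    let G' : ∀ J : Finset (Fin n ⊕ Fin k₀), MvPolynomial J Λ := fun J =>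
      if hJ : J.card = m + 1 then ∑ u ∈ (G J).support.attach,
        monomial (u : J →₀ ℕ) ((c' ⟨⟨J, hJ⟩, u⟩).eval t') else 0
    have hG'co : ∀ (J : Finset (Fin n ⊕ Fin k₀)) (hJ : J.card = m + 1) (u : (G J).support),
        (G' J).coeff u = (c' ⟨⟨J, hJ⟩, u⟩).eval t' := by
      intro J hJ u
      simp only [G', dif_pos hJ, coeff_sum, coeff_monomial]
      rw [Finset.sum_eq_single u]
      · rw [if_pos rfl]
      · intro v _ hv
        rw [if_neg fun h => hv (Subtype.ext h)]
      · intro h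
        exact absurd (Finset.mem_attach _ _) h
    have hG's : ∀ (J : Finset (Fin n ⊕ Fin k₀)) (hJ : J.card = m + 1), ∀ u ∈ (G' J).support,
        u ∈ (G J).support := by
      intro J hJ u hu
      by_contra hcon
      apply mem_support_iff.1 hu
      simp only [G', dif_pos hJ, coeff_sum, coeff_monomial]
      refine Finset.sum_eq_zero fun v _ => ?_
      rw [if_neg]
      intro h
      exact hcon (h ▸ v.2)
    have hG'ev : ∀ (J : Finset (Fin n ⊕ Fin k₀)) (hJ : J.card = m + 1) (s : J → ℂ),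
        aeval s (G' J) = eval₂ (evalAt K (algebraMap kk ℂ t)) s (G J) := by
      intro J hJ s
      simp only [G', dif_pos hJ, map_sum, aeval_monomial]
      rw [eval₂_eq', ← Finset.sum_attach (G J).support]
      refine Finset.sum_congr rfl fun u _ => ?_
      rw [hcval, Finsupp.prod_fintype _ _ fun i => pow_zero _]
    refine noAtypicalM_pt _ K _ (fun x hx => hx.1) ?_
    rintro r Z Mu η hη x ⟨hx0, hxG⟩ hxZ hxC S hS
    have hSk : AlgebraicIndependent kk (fun i : S => x i) := hS.extendScalars kk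
    have hSΛ : AlgebraicIndependent Λ (fun i : S => x i) := hSk.restrictScalars hsub
    have hdiv : ∀ l (J : Finset (Fin n ⊕ Fin k₀)) (hJ : J.card = m + 1) (u : (G J).support),
        ∃ b : Λ, b ∉ 𝔭 l ∧ (G' J).coeff u = b * (t' - r' l) ^
          order ((G J).coeff u) (algebraMap kk ℂ (α l)) := by
      intro l J hJ u
      obtain ⟨l', hl'⟩ := hρ _ (hαRt l)
      obtain ⟨b, hb1, hb2⟩ := (hN l' (r' l) t' hl'.symm).2 (𝔭 l) (h𝔭 l) (hmem l) ⟨⟨J, hJ⟩, u⟩
      refine ⟨b, hb1, ?_⟩
      rw [hG'co J hJ u, hb2, hl', hmult]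
    obtain ⟨τ, β, hL, hi1, hi2, hi3⟩ := hind f (fun l => algebraMap kk ℂ (α l)) hf
      (fun l => (hD' _ _).1 (hα l))
    have hw : ∀ l, ∃ w : Finset (Fin n ⊕ Fin k₀) → ℕ, ∀ J : Finset (Fin n ⊕ Fin k₀),
        J.card = m + 1 → (∀ u ∈ (G J).support, w J + ∑ j : J, e (algebraMap kk ℂ (α l)) j * u j ≤
          order ((G J).coeff u) (algebraMap kk ℂ (α l)) +
            ∑ j : J, zer (n := n) (e' (algebraMap kk ℂ (α l))) j * u j) ∧
        ∀ I : Finset J, (∀ j : J, needs (e (algebraMap kk ℂ (α l))) j = 0 → j ∈ I) →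
          (G J).coeff (corner (d J) I) ≠ 0 ∧
          order ((G J).coeff (corner (d J) I)) (algebraMap kk ℂ (α l)) +
            ∑ j : J, zer (n := n) (e' (algebraMap kk ℂ (α l))) j * corner (d J) I j =
          w J + ∑ j : J, e (algebraMap kk ℂ (α l)) j * corner (d J) I j := by
      intro l
      refine ⟨fun J => if hJ : J.card = m + 1 then
        (hbox (f l) _ ((hD' _ _).1 (hα l)) J hJ).choose else 0, fun J hJ => ?_⟩
      beta_reduce
      rw [dif_pos hJ]
      exact (hbox (f l) _ ((hD' _ _).1 (hα l)) J hJ).choose_spec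
    choose w hw using hw
    refine criterionMB (Λ := Λ) (F := kk) (m := m) (L := L) β hL 𝔭 h𝔭 G' d
      (fun J hJ u hu => hd J hJ u (hG's J hJ u hu)) (fun l => t' - r' l) hmem ?_
      (fun l => e (algebraMap kk ℂ (α l))) (fun l => e' (algebraMap kk ℂ (α l))) w ?_ ?_
      hi1 hi2 hi3 Z.cls
      (fun i => (Z.mat i).det.toNat) x Mu η ?_ ?_
      (fun i j l hi hj => by
        have h5 := rel_of_locus Z hxZ i j l hi hj
        rw [Int.toNat_mul (Z.det_pos i).le (Z.det_pos j).le] at h5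
        exact h5) hx0 ?_ (fun j => (hη j).1) (fun j => hintΓ _ (hη j).2.1)
      (fun j => hintΓ _ (hη j).2.2) hxC.2 ?_ S hSΛ hSk
    · intro l h0
      apply htα l
      have h1 : (((t' - r' l : Λ) : kk)) = 0 := (map_eq_zero (algebraMap kk ℂ)).1 h0
      exact sub_eq_zero.1 h1
    · intro l J hJ u hu
      obtain ⟨b, hb1, hb2⟩ := hdiv l J hJ ⟨u, hG's J hJ u hu⟩
      have h1 := (hw l J hJ).1 u (hG's J hJ u hu)
      obtain ⟨z, hz⟩ := Nat.exists_eq_add_of_le h1
      refine ⟨1, b * (t' - r' l) ^ z,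
        fun h1 => (h𝔭 l).ne_top ((Ideal.eq_top_iff_one _).2 h1), ?_⟩
      rw [one_mul, hb2, mul_assoc, ← pow_add, mul_assoc, ← pow_add]
      congr 2
      rw [hz]
      ring
    · intro l J hJ I hI
      obtain ⟨h1, h2⟩ := (hw l J hJ).2 I hI
      obtain ⟨b, hb1, hb2⟩ := hdiv l J hJ ⟨corner (d J) I, mem_support_iff.2 h1⟩
      refine ⟨1, b, fun h1 => (h𝔭 l).ne_top ((Ideal.eq_top_iff_one _).2 h1), hb1, ?_⟩
      rw [one_mul, hb2, mul_assoc, ← pow_add, h2]
    · intro i
      have := Z.det_pos i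
      omega
    · intro i hi
      obtain ⟨z, hz⟩ := hxZ
      have e3 : x (Sum.inl i) = Z.const i := (hz i).1 hi
      rw [e3]
      rcases Z.allowed i with ⟨τ, hτ, hc⟩ | h
      · rw [hc]
        exact (singular_modulus_integral τ hτ).tower_top
      · exact hintΓ _ h
    · intro j
      have h4 : IsIntegral kk (η j) := (hintΓ _ (hη j).2.1).tower_top
      have h5 : IsAlgebraic kk (η j) := h4.isAlgebraic
      have h6 : IsAlgebraic K (η j) := by
        have : Algebra.IsAlgebraic K kk := hcl.isAlgebraic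
        exact h5.restrictScalars K
      exact ⟨⟨η j, mem_algebraicClosure_iff.2 h6⟩, rfl⟩
    · intro J hJ
      rw [hG'ev J hJ]
      exact hxG J hJ
  -- the parameters lie in the algebraic closure
  have hfield : ∀ t ∈ Subfield.closure (F : Set ℂ), ∃ t' : kk,
      t' ∈ Subfield.closure (F' : Set kk) ∧ algebraMap kk ℂ t' = t := by
    intro t ht
    rw [← hF', ← RingHom.map_field_closure] at ht
    exact Subfield.mem_map.1 ht
  have hring : ∀ t ∈ Subring.closure (F : Set ℂ), ∃ t' : kk,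
      t' ∈ Subring.closure (F' : Set kk) ∧ algebraMap kk ℂ t' = t := by
    intro t ht
    rw [← hF', ← RingHom.map_closure] at ht
    exact Subring.mem_map.1 ht
  let E : Set kk := {t | t ∉ Rt ∧
    ¬ NoAtypical (algebraMap (Algebra.adjoin ℤ (Γ : Set ℂ)) ℂ) K m
      (given (evalAt K (algebraMap kk ℂ t)) m G)}
  have hLe : L - 1 + 1 = L := by omega
  refine ⟨fun hM => ?_, fun hM => ?_⟩
  · have h1 := finite_field (L := L - 1) W F' D'
      (fun I hI => (hcard I).symm ▸ hM I (by omega)) E (fun t ht h => ht.2 (core t ht.1 (hLe ▸ h)))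
    refine ((h1.union Rt.finite_toSet).image (algebraMap kk ℂ)).subset ?_
    rintro t ⟨ht, ht'⟩
    obtain ⟨t', ht1, rfl⟩ := hfield t ht
    by_cases h2 : t' ∈ Rt
    · exact ⟨t', Or.inr h2, rfl⟩
    · exact ⟨t', Or.inl ⟨ht1, h2, ht'⟩, rfl⟩
  · have h1 := finite_ring (L := L - 1) W F' D'
      (fun I hI => (hcard I).symm ▸ hM I (by omega)) E (fun t ht h => ht.2 (core t ht.1 (hLe ▸ h)))
    refine ((h1.union Rt.finite_toSet).image (algebraMap kk ℂ)).subset ?_
    rintro t ⟨ht, ht'⟩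
    obtain ⟨t', ht1, rfl⟩ := hring t ht
    by_cases h2 : t' ∈ Rt
    · exact ⟨t', Or.inr h2, rfl⟩
    · exact ⟨t', Or.inl ⟨ht1, h2, ht'⟩, rfl⟩

/-- The members with transcendental parameters. -/
theorem transMB (K : Subfield ℂ) (n k₀ m τ L : ℕ)
    (β : ℕ → ℕ) (hL : ∀ s ≤ m + 1, β s + (m + 1 - s) * (τ + 1) + 1 ≤ L)
    (G : ∀ J : Finset (Fin n ⊕ Fin k₀), MvPolynomial J (Polynomial K))
    (d : ∀ J : Finset (Fin n ⊕ Fin k₀), J → ℕ)
    (hd : ∀ J : Finset (Fin n ⊕ Fin k₀), J.card = m + 1 → ∀ u ∈ (G J).support, ∀ j, u j ≤ d J j)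
    (α : Fin L → ℂ) (hα : ∀ l, IsAlgebraic K (α l))
    (e : Fin L → Fin n ⊕ Fin k₀ → ℕ) (e' : Fin L → Fin k₀ → ℕ)
    (hind : Cond m τ β e e')
    (hbox : ∀ l, BoxAt m G d (e l) (e' l) (α l))
    (Γ : Finset ℂ) (hΓ : ∀ γ ∈ Γ, IsAlgebraic K γ) (t : ℂ) (ht : Transcendental K t)
    (K' : Subfield ℂ) [Countable K'] (hKK' : K ≤ K') (htK' : t ∈ K') :
    NoAtypical (algebraMap (Algebra.adjoin ℤ (Γ : Set ℂ)) ℂ) K' m
      (given (evalAt K t) m G) := by
  classical
  let kk := algebraicClosure K ℂ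
  have hcl : IsAlgClosure K kk := inferInstance
  have hac : IsAlgClosed kk := hcl.isAlgClosed
  have htk : Transcendental kk t := ht.extendScalars kk
  let φ : Polynomial K →+* Polynomial kk := Polynomial.mapRingHom (algebraMap K kk)
  have hφ : Function.Injective φ := Polynomial.map_injective _ (algebraMap K kk).injective
  let ev : Polynomial kk →+* ℂ := (Polynomial.aeval t : Polynomial kk →ₐ[kk] ℂ).toRingHom
  let i1 : Algebra (Polynomial kk) ℂ := ev.toAlgebra
  have hinj : Function.Injective (algebraMap (Polynomial kk) ℂ) :=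
    transcendental_iff_injective.1 htk
  have hevφ : ∀ c : Polynomial K, algebraMap (Polynomial kk) ℂ (φ c) = evalAt K t c := by
    intro c
    change Polynomial.aeval t ((c.map (algebraMap K kk))) = Polynomial.aeval t c
    rw [Polynomial.aeval_map_algebraMap]
  have hmem : ∀ z : ℂ, IsAlgebraic K z → ∃ z' : kk, algebraMap kk ℂ z' = z := fun z hz =>
    ⟨⟨z, mem_algebraicClosure_iff'.2 hz.isIntegral⟩, rfl⟩
  choose α' hα' using fun l => hmem (α l) (hα l)
  have hmult : ∀ l (c : Polynomial K), (φ c).rootMultiplicity (α' l) = order c (α l) := by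
    intro l c
    have h1 := Polynomial.eq_rootMultiplicity_map (p := φ c) (f := algebraMap kk ℂ)
      (algebraMap kk ℂ).injective (α' l)
    rw [h1, hα']
    simp only [φ, order, Polynomial.coe_mapRingHom, Polynomial.map_map]
    rfl
  have hintΓ : ∀ z, (algebraMap (Algebra.adjoin ℤ (Γ : Set ℂ)) ℂ).IsIntegralElem z →
      IsIntegral (Polynomial kk) z := by
    intro z hz
    refine int_up hinj (Γ : Set ℂ) (fun g hg => ?_) hz
    obtain ⟨g', hg'⟩ := hmem g (hΓ g hg)
    refine ⟨Polynomial.C g', ?_⟩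
    change Polynomial.aeval t (Polynomial.C g') = g
    rw [Polynomial.aeval_C, hg']
  -- the polynomials in the parameter as elements of the closure of `K'`
  let k' := algebraicClosure K' ℂ
  have hev' : ∀ a : Polynomial kk, ev a ∈ k'.toSubfield := by
    intro a
    change Polynomial.aeval t a ∈ k'.toSubfield
    rw [Polynomial.aeval_eq_sum_range]
    refine sum_mem fun i _ => ?_
    rw [Algebra.smul_def]
    refine mul_mem ?_ (pow_mem ?_ i)
    · have h1 : IsAlgebraic K ((algebraMap kk ℂ) (a.coeff i)) :=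
        (Algebra.IsAlgebraic.isAlgebraic (R := K) (a.coeff i)).algebraMap
      let i2 : Algebra K K' := (Subfield.inclusion hKK').toAlgebra
      have hst : IsScalarTower K K' ℂ := IsScalarTower.of_algebraMap_eq fun _ => rfl
      have h2 : IsAlgebraic K' ((algebraMap kk ℂ) (a.coeff i)) := h1.tower_top K'
      exact mem_algebraicClosure_iff'.2 h2.isIntegral
    · exact mem_algebraicClosure_iff'.2 (isIntegral_algebraMap (R := K') (x := ⟨t, htK'⟩))
  let fΛ : Polynomial kk →+* k' := ev.codRestrict k'.toSubfield hev'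
  let i3 : Algebra (Polynomial kk) k' := fΛ.toAlgebra
  have hst3 : IsScalarTower (Polynomial kk) k' ℂ := IsScalarTower.of_algebraMap_eq fun _ => rfl
  have hinj3 : Function.Injective (algebraMap (Polynomial kk) k') := by
    intro a b h
    apply hinj
    exact congrArg (algebraMap k' ℂ) h
  refine noAtypicalM_pt _ K' _ (fun x hx => hx.1) ?_
  rintro r Z Mu η hη x ⟨hx0, hxG⟩ hxZ hxC S hS
  have hSk : AlgebraicIndependent k' (fun i : S => x i) := hS.extendScalars k'
  have hSΛ : AlgebraicIndependent (Polynomial kk) (fun i : S => x i) :=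
    hSk.restrictScalars hinj3
  have hsupp : ∀ J, ∀ u ∈ (MvPolynomial.map φ (G J)).support, u ∈ (G J).support := fun J u hu =>
    support_map_subset _ _ hu
  have hw : ∀ l, ∃ w : Finset (Fin n ⊕ Fin k₀) → ℕ, ∀ J : Finset (Fin n ⊕ Fin k₀),
      J.card = m + 1 → (∀ u ∈ (G J).support, w J + ∑ j : J, e l j * u j ≤
        order ((G J).coeff u) (α l) + ∑ j : J, zer (n := n) (e' l) j * u j) ∧
      ∀ I : Finset J, (∀ j : J, needs (e l) j = 0 → j ∈ I) →
        (G J).coeff (corner (d J) I) ≠ 0 ∧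
        order ((G J).coeff (corner (d J) I)) (α l) +
          ∑ j : J, zer (n := n) (e' l) j * corner (d J) I j =
        w J + ∑ j : J, e l j * corner (d J) I j := by
    intro l
    refine ⟨fun J => if hJ : J.card = m + 1 then (hbox l J hJ).choose else 0, fun J hJ => ?_⟩
    beta_reduce
    rw [dif_pos hJ]
    exact (hbox l J hJ).choose_spec
  choose w hw using hw
  refine criterionMB (Λ := Polynomial kk) (F := k') (m := m) (L := L) β hL
    (fun l => RingHom.ker (Polynomial.evalRingHom (α' l)))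
    (fun l => RingHom.ker_isPrime _) (fun J => MvPolynomial.map φ (G J)) d
    (fun J hJ u hu => hd J hJ u (hsupp J u hu))
    (fun l => Polynomial.X - Polynomial.C (α' l)) ?_ ?_ e e' w ?_ ?_
    hind.1 hind.2.1 hind.2.2 Z.cls
    (fun i => (Z.mat i).det.toNat) x Mu η ?_ ?_
    (fun i j l hi hj => by
      have h5 := rel_of_locus Z hxZ i j l hi hj
      rw [Int.toNat_mul (Z.det_pos i).le (Z.det_pos j).le] at h5
      exact h5) hx0 ?_ (fun j => (hη j).1) (fun j => hintΓ _ (hη j).2.1)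
      (fun j => hintΓ _ (hη j).2.2) hxC.2 ?_ S hSΛ hSk
  · intro l
    rw [RingHom.mem_ker, Polynomial.coe_evalRingHom, Polynomial.eval_sub, Polynomial.eval_X,
      Polynomial.eval_C, sub_self]
  · intro l h0
    exact Polynomial.X_sub_C_ne_zero (α' l) (hinj (h0.trans (map_zero _).symm))
  · intro l J hJ u hu
    have h1 := (hw l J hJ).1 u (hsupp J u hu)
    rw [← hmult] at h1
    obtain ⟨b, hb⟩ := Polynomial.pow_rootMultiplicity_dvd (φ ((G J).coeff u)) (α' l)
    obtain ⟨z, hz⟩ := Nat.exists_eq_add_of_le h1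
    refine ⟨1, b * (Polynomial.X - Polynomial.C (α' l)) ^ z, fun h2 => ?_, ?_⟩
    · rw [RingHom.mem_ker, map_one] at h2
      exact one_ne_zero h2
    · rw [one_mul, coeff_map, mul_assoc, ← pow_add, add_comm z, ← hz, pow_add]
      conv_lhs => rw [hb]
      ring
  · intro l J hJ I hI
    obtain ⟨h1, h2⟩ := (hw l J hJ).2 I hI
    obtain ⟨b, hb1, hb2⟩ := Polynomial.exists_eq_pow_rootMultiplicity_mul_and_not_dvd
      (φ ((G J).coeff (corner (d J) I))) ((map_ne_zero_iff φ hφ).2 h1) (α' l)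
    refine ⟨1, b, fun h3 => ?_, fun h3 => ?_, ?_⟩
    · rw [RingHom.mem_ker, map_one] at h3
      exact one_ne_zero h3
    · apply hb2
      rw [Polynomial.dvd_iff_isRoot]
      exact h3
    · rw [one_mul, coeff_map, ← h2, pow_add, ← hmult]
      conv_lhs => rw [hb1]
      ring
  · intro i
    have := Z.det_pos i
    omega
  · intro i hi
    obtain ⟨z, hz⟩ := hxZ
    have e3 : x (Sum.inl i) = Z.const i := (hz i).1 hi
    rw [e3]
    rcases Z.allowed i with ⟨τ, hτ, hc⟩ | h
    · rw [hc]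
      exact (singular_modulus_integral τ hτ).tower_top
    · exact hintΓ _ h
  · intro j
    have h4 : IsAlgebraic (Polynomial kk) (η j) := (hintΓ _ (hη j).2.1).isAlgebraic
    have h5 : IsAlgebraic k' (η j) := h4.extendScalars hinj3
    have h6 : IsAlgebraic K' (η j) := by
      have : Algebra.IsAlgebraic K' k' := (inferInstance : IsAlgClosure K' k').isAlgebraic
      exact h5.restrictScalars K'
    exact ⟨⟨η j, mem_algebraicClosure_iff.2 h6⟩, rfl⟩
  · intro J hJ
    have h1 := hxG J hJ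
    rw [aeval_def, eval₂_map]
    have h2 : (algebraMap (Polynomial kk) ℂ).comp φ = evalAt K t := RingHom.ext hevφ
    rw [h2]
    exact h1

end Pool.Agent.Q209.MB
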