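import Pool.Agent.Q209.MB.Crit
import Pool.Agent.Q209.MP.Multi

/-!
Families with several parameters of subsets of `Y(1)^n × G_m^k` given by equations with partial box
degenerations along hypersurfaces: the members with integral parameters (helper file; adapted from
`Pool.Agent.Q209.MP.Multi` and `Pool.Agent.Q170.BX.Multi`).
-/

set_option autoImplicit false

namespace Pool.Agent.Q209.MB

open Pool.Agent
open H294ZP UpperHalfPlane MvPolynomial Pool.Agent.W282.ZP Pool.Agent.Y152.BD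
open Pool.Agent.TH526.ZL (corner)
open Pool.Agent.Q209.MP (needs Cond noAtypicalM_pt coreMP exists_val1)
open Pool.Agent.Y152.RP.FamM (SpecialVariety SpecialVariety.locus coset NoAtypical rel_of_locus)
open Pool.Agent.Q170.ZP.Multi (evM evM_apply evM_int v_int_one v_int_lt aeval_int)
open Pool.Agent.Q170.BX (unitP intP)

/-- Families with several parameters: the members with integral parameters which are near to all the
hypersurfaces at suitable primes. -/
theorem multiMB (K : Subfield ℂ) [Countable K] (r n k₀ m τ L : ℕ)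
    (β : ℕ → ℕ) (hL : ∀ s ≤ m + 1, β s + (m + 1 - s) * (τ + 1) + 1 ≤ L)
    (G : ∀ J : Finset (Fin n ⊕ Fin k₀), MvPolynomial J (MvPolynomial (Fin r) K))
    (d : ∀ J : Finset (Fin n ⊕ Fin k₀), J → ℕ)
    (hd : ∀ J : Finset (Fin n ⊕ Fin k₀), J.card = m + 1 → ∀ u ∈ (G J).support, ∀ j, u j ≤ d J j)
    (D E : Fin L → MvPolynomial (Fin r) ℤ)
    (e : Fin L → Fin n ⊕ Fin k₀ → ℕ) (e' : Fin L → Fin k₀ → ℕ) (hind : Cond m τ β e e')
    (w : Fin L → Finset (Fin n ⊕ Fin k₀) → ℕ)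
    (hG : ∀ l (J : Finset (Fin n ⊕ Fin k₀)), J.card = m + 1 → ∀ u ∈ (G J).support,
      MvPolynomial.map (Int.castRingHom K) (D l) ^ (w l J + ∑ j : J, e l j * u j) ∣
        (G J).coeff u *
          MvPolynomial.map (Int.castRingHom K) (D l) ^ (∑ j : J, zer (n := n) (e' l) j * u j))
    (hcor : ∀ l (J : Finset (Fin n ⊕ Fin k₀)), J.card = m + 1 → ∀ I : Finset J,
      (∀ j : J, needs (e l) j = 0 → j ∈ I) →
      ∃ b : MvPolynomial (Fin r) K, (G J).coeff (corner (d J) I) *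
          MvPolynomial.map (Int.castRingHom K) (D l) ^
            (∑ j : J, zer (n := n) (e' l) j * corner (d J) I j) =
        MvPolynomial.map (Int.castRingHom K) (D l) ^
          (w l J + ∑ j : J, e l j * corner (d J) I j) * b ∧
      ∀ t : Fin r → ℂ, aeval t (D l) = 0 → aeval t (E l) ≠ 0 → evM K t b ≠ 0)
    (Γ : Finset ℂ) (hΓ : ∀ γ ∈ Γ, γ ∈ K) :
    ∃ Q : ℕ, ∀ t : Fin r → ℤ,
      (∀ l, eval t (D l) ≠ 0 ∧
        ∃ p : ℕ, p.Prime ∧ Q < p ∧ (p : ℤ) ∣ eval t (D l) ∧ ¬ (p : ℤ) ∣ eval t (E l)) →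
      NoAtypical (algebraMap (Algebra.adjoin ℤ (Γ : Set ℂ)) ℂ) K m
        (given (evM K fun j => (t j : ℂ)) m G) := by
  classical
  let k := algebraicClosure K ℂ
  have hcl : IsAlgClosure K k := inferInstance
  have hac : IsAlgClosed k := hcl.isAlgClosed
  let Γ' : Set k := (fun γ : Γ => algebraMap K k ⟨γ, hΓ γ γ.2⟩) '' Set.univ
  have hΓ' : algebraMap k ℂ '' Γ' = (Γ : Set ℂ) := by
    ext z
    constructor
    · rintro ⟨_, ⟨g, -, rfl⟩, rfl⟩
      exact g.2
    · intro hz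
      exact ⟨_, ⟨⟨z, hz⟩, trivial, rfl⟩, rfl⟩
  choose q hq using hG
  choose b hb1 hb2 using hcor
  -- the finite sets of coefficients
  have h1 := fun (l : Fin L) (J : {J : Finset (Fin n ⊕ Fin k₀) // J.card = m + 1})
    (u : (G J.1).support) => intP (k := k) (q l J.1 J.2 u u.2)
  choose Wi hWi hi using h1
  have h2 := fun (l : Fin L) (J : {J : Finset (Fin n ⊕ Fin k₀) // J.card = m + 1})
    (I : {I : Finset J.1 // ∀ j : J.1, needs (e l) j = 0 → j ∈ I}) =>
      unitP (k := k) (D l) (E l) (b l J.1 J.2 I.1 I.2) (hb2 l J.1 J.2 I.1 I.2)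
  choose Wu hWu hu using h2
  let W : Set k := (⋃ l, ⋃ J, ⋃ u, Wi l J u) ∪ ((⋃ l, ⋃ J, ⋃ I, Wu l J I) ∪ Γ')
  have hW : W.Finite := (Set.finite_iUnion fun l => Set.finite_iUnion fun J =>
    Set.finite_iUnion fun u => hWi l J u).union ((Set.finite_iUnion fun l =>
    Set.finite_iUnion fun J => Set.finite_iUnion fun I => hWu l J I).union (Set.toFinite _))
  have := hW.to_subtype
  obtain ⟨Q, hQ⟩ := exists_val1 (fun z : W => (z : k))
  refine ⟨Q, fun t ht => noAtypicalM_pt _ K _ (fun x hx => hx.1) ?_⟩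
  obtain ⟨tc, htc⟩ : ∃ tc : Fin r → ℂ, tc = fun j => (t j : ℂ) := ⟨_, rfl⟩
  rw [← htc]
  rintro r' Z Mu η hη x ⟨hx0, hxG⟩ hxZ hxC S hS
  have hevD : ∀ P : MvPolynomial (Fin r) ℤ, aeval tc P = ((eval t P : ℤ) : ℂ) := fun P => by
    rw [htc, aeval_int]
  have hSk : AlgebraicIndependent k (fun i : S => x i) := hS.extendScalars k
  choose ht0 p hp hpQ hpD hpE using ht
  choose V hV1 hVW hVx using fun l => hQ (p l) (hp l) (hpQ l) _ _ hSk
  have hVp : ∀ l, (V l).valuation ((p l : ℕ) : ℂ) < 1 := hV1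
  have hVD : ∀ l, (V l).valuation (aeval tc (D l)) < 1 := fun l => by
    rw [hevD]
    exact v_int_lt (hVp l) (hpD l)
  have hD0 : ∀ l, aeval tc (D l) ≠ 0 := fun l => by
    rw [hevD]
    exact_mod_cast ht0 l
  have hVE : ∀ l, (V l).valuation (aeval tc (E l)) = 1 := fun l => by
    rw [hevD]
    exact v_int_one (hp l) (hVp l) (hpE l)
  have htV : ∀ l j, tc j ∈ V l := fun l j => by
    rw [htc]
    exact intCast_mem _ _
  have hVW' : ∀ l, ∀ z ∈ W, algebraMap k ℂ z ∈ V l := fun l z hz => hVW l ⟨z, hz⟩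
  have hΓV : ∀ l, ∀ z ∈ Γ', algebraMap k ℂ z ∈ V l := fun l z hz =>
    hVW' l z (Or.inr (Or.inr hz))
  have hηint : ∀ j, IsIntegral (Algebra.adjoin ℤ (algebraMap k ℂ '' Γ')) (η j) ∧
      IsIntegral (Algebra.adjoin ℤ (algebraMap k ℂ '' Γ')) (η j)⁻¹ := by
    intro j
    rw [hΓ']
    exact ⟨(hη j).2.1, (hη j).2.2⟩
  have h1 : ∀ i, Z.cls i = none →
      IsIntegral (Algebra.adjoin ℤ (algebraMap k ℂ '' Γ')) (x (Sum.inl i)) := by
    intro i hi
    obtain ⟨z, hz⟩ := hxZ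
    have e3 : x (Sum.inl i) = Z.const i := (hz i).1 hi
    rw [hΓ', e3]
    rcases Z.allowed i with ⟨τ, hτ, hc⟩ | h
    · rw [hc]
      exact (singular_modulus_integral τ hτ).tower_top
    · exact h
  refine coreMP (Λ := k) (F := k) (m := m) β hL (fun l i => e l (Sum.inl i)) hind.1 hind.2.1
    (fun l j => (e' l j : ℤ) - e l (Sum.inr j)) hind.2.2
    Z.cls (fun i => (Z.mat i).det.toNat) x Mu η
    (fun i => by
      have := Z.det_pos i
      omega)
    (fun i hi => alg_of_int Γ' (h1 i hi)) ?_ hx0 (fun j => ?_) hxC.2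
    S hSk hSk V
    (fun l => (V l).valuation (aeval tc (D l))) (fun l => (Valuation.ne_zero_iff _).2 (hD0 l)) hVD
    (fun l i hi => v_le_of_int Γ' (V l) (hΓV l) (h1 i hi)) hVx (fun l j => ?_)
    (fun l => ?_)
  · intro i j l hi hj
    have h5 := rel_of_locus Z hxZ i j l hi hj
    rw [Int.toNat_mul (Z.det_pos i).le (Z.det_pos j).le] at h5
    exact h5
  · have h5 : IsAlgebraic k (η j) := alg_of_int Γ' (hηint j).1
    have h6 : IsAlgebraic K (η j) := by
      have : Algebra.IsAlgebraic K k := hcl.isAlgebraic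
      exact h5.restrictScalars K
    exact ⟨⟨η j, mem_algebraicClosure_iff.2 h6⟩, rfl⟩
  · refine le_antisymm (v_le_of_int Γ' (V l) (hΓV l) (hηint j).1) ?_
    have h5 := v_le_of_int Γ' (V l) (hΓV l) (hηint j).2
    rw [map_inv₀] at h5
    have h6 : (V l).valuation (η j) ≠ 0 := (Valuation.ne_zero_iff _).2 (hη j).1
    exact (inv_le_one₀ (zero_lt_iff.2 h6)).1 h5
  · have hco : ∀ (J : Finset (Fin n ⊕ Fin k₀)) (u : J →₀ ℕ),
        (MvPolynomial.map (evM K tc) (G J)).coeff u = evM K tc ((G J).coeff u) :=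
      fun J u => coeff_map _ _ _
    have hsupp : ∀ (J : Finset (Fin n ⊕ Fin k₀)),
        ∀ u ∈ (MvPolynomial.map (evM K tc) (G J)).support, u ∈ (G J).support := by
      intro J u hu
      exact support_map_subset _ _ hu
    refine bad_setB (m := m) (V l) (e l) (e' l) (aeval tc (D l)) (hD0 l) (w l)
      (fun J => MvPolynomial.map (evM K tc) (G J)) (fun J hJ u hu' => ?_) d
      (fun J hJ u hu' => hd J hJ u (hsupp J u hu')) (fun J hJ I hI => ?_) x (fun J hJ => ?_)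
    · have hu1 := hsupp J u hu'
      have h3 := congrArg (evM K tc) (hq l J hJ u hu1)
      simp only [map_mul, map_pow, evM_int] at h3
      rw [hco, ← map_pow, ← map_mul, h3, map_mul, map_pow]
      refine mul_le_of_le_one_right' ?_
      exact hi l ⟨J, hJ⟩ ⟨u, hu1⟩ (V l) (fun z hz => hVW' l z (Or.inl
        (Set.mem_iUnion.2 ⟨l, Set.mem_iUnion.2 ⟨⟨J, hJ⟩, Set.mem_iUnion.2 ⟨⟨u, hu1⟩, hz⟩⟩⟩)))
        tc (htV l)
    · have h3 := congrArg (evM K tc) (hb1 l J hJ I hI)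
      simp only [map_mul, map_pow, evM_int] at h3
      rw [hco, ← map_pow, ← map_mul, h3, map_mul, map_pow]
      rw [hu l ⟨J, hJ⟩ ⟨I, hI⟩ (V l) (fun z hz => hVW' l z (Or.inr (Or.inl
        (Set.mem_iUnion.2 ⟨l, Set.mem_iUnion.2 ⟨⟨J, hJ⟩, Set.mem_iUnion.2 ⟨⟨I, hI⟩, hz⟩⟩⟩))))
        tc (htV l) (hVD l) (hVE l), mul_one]
    · rw [aeval_def, eval₂_map, Algebra.algebraMap_self, RingHom.id_comp]
      exact hxG J hJ

end Pool.Agent.Q209.MB
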